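import Mathlib
import Pool.Agent.Helper973_OutC.Base

/-!
If every class-preserving automorphism of `G / γ_{k+1}(G)` is inner (`k ≥ 1`), then the lower
central series of `OutC G` descends `k` times faster than in general.
-/

set_option autoImplicit false

namespace Pool.Agent.Helper973_TwoGen

open Subgroup Pool.Agent.Helper973_OutC
open scoped commutatorElement

variable {G : Type*} [Group G]

/-- the subgroup of `g` whose inner automorphism is deep -/
def DeepConj (G : Type*) [Group G] (a : ℕ) : Subgroup G where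
  carrier := {v | Deep a (MulAut.conj v)}
  one_mem' := by
    change Deep a (MulAut.conj (1 : G))
    rw [map_one]
    exact Deep.one a
  mul_mem' := by
    intro v w hv hw
    change Deep a (MulAut.conj (v * w))
    rw [map_mul]
    exact Deep.mul hv hw
  inv_mem' := by
    intro v hv
    change Deep a (MulAut.conj v⁻¹)
    rw [map_inv]
    exact Deep.inv hv

theorem gam_le_deepConj (j : ℕ) : gam G j ≤ DeepConj G j := by
  induction j with
  | zero =>
    intro v _
    refine deep_of_autC _ ?_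
    intro x
    exact isConj_iff.2 ⟨v, (MulAut.conj_apply v x).symm⟩
  | succ j ih =>
    rw [gam, Subgroup.lowerCentralSeries_succ, Subgroup.commutator_le]
    intro v hv x _
    change Deep (j + 1) (MulAut.conj ⁅v, x⁆)
    rw [map_commutatorElement]
    refine Deep.comm (ih hv) (deep_of_autC _ ?_)
    intro y
    exact isConj_iff.2 ⟨x, (MulAut.conj_apply x y).symm⟩

/-- `[γ_{j+1}, γ_{i+1}] ≤ γ_{i+j+2}` -/
theorem gam_comm {i j : ℕ} {v g : G} (hv : v ∈ gam G j) (hg : g ∈ gam G i) :
    ⁅v, g⁆ ∈ gam G (i + j + 1) := by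
  have h := gam_le_deepConj j hv i g hg
  rw [MulAut.conj_apply] at h
  rw [commutatorElement_def]
  exact h

theorem mk_eq_of_mem {N : Subgroup G} [N.Normal] {x y : G} (h : x * y⁻¹ ∈ N) :
    (QuotientGroup.mk x : G ⧸ N) = QuotientGroup.mk y := by
  have h3 : (QuotientGroup.mk (x * y⁻¹) : G ⧸ N) = 1 := (QuotientGroup.eq_one_iff _).2 h
  rw [QuotientGroup.mk_mul, QuotientGroup.mk_inv, mul_inv_eq_one] at h3
  exact h3

theorem mem_of_mk_eq {N : Subgroup G} [N.Normal] {x y : G}
    (h : (QuotientGroup.mk x : G ⧸ N) = QuotientGroup.mk y) : x * y⁻¹ ∈ N := by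
  apply (QuotientGroup.eq_one_iff _).1
  rw [QuotientGroup.mk_mul, QuotientGroup.mk_inv, h, mul_inv_cancel]

/-- the depths add up (shifted by one) under commutators -/
theorem Deep.comm' {a b : ℕ} {α β : MulAut G} (hα : Deep a α) (hβ : Deep b β) :
    Deep (a + b + 1) ⁅α, β⁆ := by
  intro i g hg
  set h : G := (β * α)⁻¹ g with hh
  have hhi : h ∈ gam G i := gam_char i _ hg
  have hg' : g = β (α h) := by
    rw [hh]
    change g = (β * α) ((β * α)⁻¹ g)
    rw [MulAut.apply_inv_self]
  have hab : ⁅α, β⁆ g = α (β h) := by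
    rw [commutatorElement_def]
    have : α * β * α⁻¹ * β⁻¹ = (α * β) * (β * α)⁻¹ := by group
    rw [this, MulAut.mul_apply, MulAut.mul_apply, ← hh]
  rw [hab, hg']
  set N := gam G (i + (a + b + 1) + 1) with hN
  apply mem_of_mk_eq
  set u := β h * h⁻¹ with hu
  set v := α h * h⁻¹ with hv
  have hu' : u ∈ gam G (i + b + 1) := hβ i h hhi
  have hv' : v ∈ gam G (i + a + 1) := hα i h hhi
  have hβh : β h = u * h := by rw [hu]; group
  have hαh : α h = v * h := by rw [hv]; group
  have e1 : (QuotientGroup.mk (α u) : G ⧸ N) = QuotientGroup.mk u := by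
    apply mk_eq_of_mem
    have := hα (i + b + 1) u hu'
    have hidx : i + b + 1 + a + 1 = i + (a + b + 1) + 1 := by ring
    rw [hN, ← hidx]; exact this
  have e2 : (QuotientGroup.mk (β v) : G ⧸ N) = QuotientGroup.mk v := by
    apply mk_eq_of_mem
    have := hβ (i + a + 1) v hv'
    have hidx : i + a + 1 + b + 1 = i + (a + b + 1) + 1 := by ring
    rw [hN, ← hidx]; exact this
  have e3 : (QuotientGroup.mk (u * v) : G ⧸ N) = QuotientGroup.mk (v * u) := by
    apply mk_eq_of_mem
    have h4 : u * v * (v * u)⁻¹ = ⁅u, v⁆ := by rw [commutatorElement_def]; group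
    rw [h4]
    exact gam_anti (by omega) (gam_comm hu' hv')
  have l : (QuotientGroup.mk (α (β h)) : G ⧸ N) = QuotientGroup.mk (u * v) * QuotientGroup.mk h := by
    rw [hβh, map_mul, hαh, QuotientGroup.mk_mul, e1, ← QuotientGroup.mk_mul, ← QuotientGroup.mk_mul]
    congr 1
    group
  have r : (QuotientGroup.mk (β (α h)) : G ⧸ N) = QuotientGroup.mk (v * u) * QuotientGroup.mk h := by
    rw [hαh, map_mul, hβh, QuotientGroup.mk_mul, e2, ← QuotientGroup.mk_mul, ← QuotientGroup.mk_mul]
    congr 1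
    group
  rw [l, r, e3]

/-- an automorphism trivial modulo `γ_{k+2}` is `k`-deep -/
theorem deep_of_trivial {k : ℕ} {β : MulAut G} (h : ∀ x : G, β x * x⁻¹ ∈ gam G (k + 1)) :
    Deep k β := by
  intro i
  induction i with
  | zero =>
    intro g _
    rw [show 0 + k + 1 = k + 1 by ring]
    exact h g
  | succ i ih =>
    intro g hg
    set N := gam G (i + 1 + k + 1) with hN
    let φ : G →* G ⧸ N := (QuotientGroup.mk' N).comp β.toMonoidHom
    let ψ : G →* G ⧸ N := QuotientGroup.mk' N
    have key : gam G (i + 1) ≤ MonoidHom.eqLocus φ ψ := by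
      rw [gam, Subgroup.lowerCentralSeries_succ, Subgroup.commutator_le]
      intro g hg x _
      change (QuotientGroup.mk (β ⁅g, x⁆) : G ⧸ N) = QuotientGroup.mk ⁅g, x⁆
      set u := β g * g⁻¹ with hu
      set v := β x * x⁻¹ with hv
      have hu' : u ∈ gam G (i + k + 1) := ih g hg
      have hv' : v ∈ gam G (k + 1) := h x
      have hβg : β g = u * g := by rw [hu]; group
      have hβx : β x = v * x := by rw [hv]; group
      rw [map_commutatorElement, hβg, hβx]
      -- `u` is central modulo `N`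
      have c1 : ∀ y : G, (QuotientGroup.mk (u * y) : G ⧸ N) = QuotientGroup.mk (y * u) := by
        intro y
        apply mk_eq_of_mem
        have h4 : u * y * (y * u)⁻¹ = ⁅u, y⁆ := by rw [commutatorElement_def]; group
        rw [h4]
        have := comm_mem_left hu' y
        rwa [show i + k + 1 + 1 = i + 1 + k + 1 by ring] at this
      have c2 : (QuotientGroup.mk ⁅g, v⁆ : G ⧸ N) = 1 := by
        rw [QuotientGroup.eq_one_iff]
        exact gam_anti (by omega) (gam_comm hg hv')
      have c3 : (QuotientGroup.mk (v * ⁅g, x⁆) : G ⧸ N) = QuotientGroup.mk (⁅g, x⁆ * v) := by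
        apply mk_eq_of_mem
        have h4 : v * ⁅g, x⁆ * (⁅g, x⁆ * v)⁻¹ = ⁅v, ⁅g, x⁆⁆ := by
          rw [commutatorElement_def v]; group
        rw [h4]
        have hm : ⁅g, x⁆ ∈ gam G (i + 1) := comm_mem_left hg x
        exact gam_anti (by omega) (gam_comm hv' hm)
      have d1 : ⁅u * g, v * x⁆ = u * (g * (v * x) * g⁻¹) * u⁻¹ * (v * x)⁻¹ := by
        rw [commutatorElement_def]; group
      have d2 : (QuotientGroup.mk (u * (g * (v * x) * g⁻¹)) : G ⧸ N)
          = QuotientGroup.mk ((g * (v * x) * g⁻¹) * u) := c1 _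
      have d3 : (QuotientGroup.mk ⁅u * g, v * x⁆ : G ⧸ N) = QuotientGroup.mk ⁅g, v * x⁆ := by
        rw [d1, QuotientGroup.mk_mul, QuotientGroup.mk_mul, d2, ← QuotientGroup.mk_mul,
          ← QuotientGroup.mk_mul]
        congr 1
        rw [commutatorElement_def]
        group
      have d4 : ⁅g, v * x⁆ = ⁅g, v⁆ * (v * ⁅g, x⁆) * v⁻¹ := by
        simp only [commutatorElement_def]; group
      rw [d3, d4, QuotientGroup.mk_mul, QuotientGroup.mk_mul, c2, c3, one_mul,
        ← QuotientGroup.mk_mul]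
      congr 1
      group
    have h5 : (QuotientGroup.mk (β g) : G ⧸ N) = QuotientGroup.mk g := key hg
    exact mem_of_mk_eq h5

/-- deep class-preserving automorphisms, as a subgroup of `AutC G` -/
def DD (G : Type*) [Group G] (a : ℕ) : Subgroup (AutC G) where
  carrier := {α | Deep a (α : MulAut G)}
  one_mem' := Deep.one a
  mul_mem' := fun h h' => Deep.mul h h'
  inv_mem' := fun h => Deep.inv h

theorem lcs_outC_le {k : ℕ} (hT : (⊤ : Subgroup (OutC G)) ≤
    (DD G k).map (QuotientGroup.mk' (InnC G))) (n : ℕ) :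
    (⊤ : Subgroup (OutC G)).lowerCentralSeries n ≤
      (DD G ((k + 1) * (n + 1) - 1)).map (QuotientGroup.mk' (InnC G)) := by
  induction n with
  | zero =>
    rw [Subgroup.lowerCentralSeries_zero]
    simpa using hT
  | succ n ih =>
    rw [Subgroup.lowerCentralSeries_succ]
    refine (Subgroup.commutator_mono ih hT).trans ?_
    rw [← Subgroup.map_commutator]
    apply Subgroup.map_mono
    rw [Subgroup.commutator_le]
    intro α hα β hβ
    have h1 := Deep.comm' (show Deep _ (α : MulAut G) from hα) (show Deep _ (β : MulAut G) from hβ)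
    have h2 : (k + 1) * (n + 1) - 1 + k + 1 = (k + 1) * (n + 1 + 1) - 1 := by
      have : 1 ≤ (k + 1) * (n + 1) := Nat.succ_le_of_lt (Nat.mul_pos (Nat.succ_pos k) (Nat.succ_pos n))
      have h3 : (k + 1) * (n + 1 + 1) = (k + 1) * (n + 1) + (k + 1) := by ring
      omega
    rw [h2] at h1
    exact h1

/-- the general theorem: `class (Out_c G) ≤ n` as soon as `(k+1)(n+1) ≥ class G` -/
theorem outC_lcs_eq_bot {k n c : ℕ} (hT : ∀ α : AutC G, ∃ g : G, ∀ x : G,
    (α : MulAut G) x * (g * x * g⁻¹)⁻¹ ∈ gam G (k + 1)) (hc : gam G c = ⊥)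
    (hn : c ≤ (k + 1) * (n + 1)) : (⊤ : Subgroup (OutC G)).lowerCentralSeries n = ⊥ := by
  have hT' : (⊤ : Subgroup (OutC G)) ≤ (DD G k).map (QuotientGroup.mk' (InnC G)) := by
    intro y _
    obtain ⟨α, rfl⟩ := QuotientGroup.mk'_surjective (InnC G) y
    obtain ⟨g, hg⟩ := hT α
    have hgm : MulAut.conj g ∈ AutC G := fun x =>
      isConj_iff.2 ⟨g, (MulAut.conj_apply g x).symm⟩
    set ι : AutC G := ⟨MulAut.conj g, hgm⟩ with hι
    have hιm : ι ∈ InnC G := ⟨g, rfl⟩
    refine ⟨α * ι⁻¹, ?_, ?_⟩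
    · refine deep_of_trivial ?_
      intro x
      have h1 : ((α * ι⁻¹ : AutC G) : MulAut G) x = (α : MulAut G) (g⁻¹ * x * g) := by
        change (α : MulAut G) ((MulAut.conj g)⁻¹ x) = _
        rw [← map_inv, MulAut.conj_apply, inv_inv]
      rw [h1]
      have h2 := hg (g⁻¹ * x * g)
      have h3 : g * (g⁻¹ * x * g) * g⁻¹ = x := by group
      rwa [h3] at h2
    · rw [map_mul, map_inv]
      have h1 : QuotientGroup.mk' (InnC G) ι = 1 := (QuotientGroup.eq_one_iff _).2 hιm
      rw [h1, inv_one, mul_one]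
  rw [eq_bot_iff]
  refine (lcs_outC_le hT' n).trans ?_
  rintro _ ⟨α, hα, rfl⟩
  have h1 : α = 1 := by
    apply Subtype.ext
    ext x
    have h2 := hα 0 x (by simp [gam])
    have h3 : (α : MulAut G) x * x⁻¹ ∈ gam G c := gam_anti (by omega) h2
    rw [hc, Subgroup.mem_bot, mul_inv_eq_one] at h3
    exact h3
  rw [h1, map_one]
  exact Subgroup.one_mem _

end Pool.Agent.Helper973_TwoGen
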