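import Mathlib
import Pool.Agent.Helper973_OutC.Base
import Pool.Agent.Helper973_TwoGen.Deep

/-!
Class-preserving automorphisms of 2-generated groups of class at most 2 (any such group) and of
class at most 3 (`p`-groups, `p` odd) are inner.
-/

set_option autoImplicit false

namespace Pool.Agent.Helper973_TwoGen

open Subgroup Pool.Agent.Helper973_OutC
open scoped commutatorElement

variable {G : Type*} [Group G]

/-- the center is a commutative group -/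
@[reducible] def cgrp (G : Type*) [Group G] : CommGroup (Subgroup.center G) :=
  { (inferInstance : Group (Subgroup.center G)) with
    mul_comm := fun a b => Subtype.ext (Subgroup.mem_center_iff.1 b.2 a) }

/-- normal form modulo the commutator subgroup -/
theorem exists_decomp {x y : G} (hxy : closure {x, y} = ⊤) (h : G) :
    ∃ i j : ℤ, ∃ v ∈ gam G 1, h = x ^ i * y ^ j * v := by
  have h1 : gam G 1 = commutator G := Subgroup.top_lowerCentralSeries_one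
  have h2 : Abelianization.of h ∈ closure {Abelianization.of x, Abelianization.of y} := by
    have h3 : (closure {x, y}).map (Abelianization.of : G →* Abelianization G)
        = closure {Abelianization.of x, Abelianization.of y} := by
      rw [MonoidHom.map_closure, Set.image_pair]
    rw [← h3, hxy]
    exact ⟨h, Subgroup.mem_top h, rfl⟩
  rw [Subgroup.mem_closure_pair] at h2
  obtain ⟨i, j, hij⟩ := h2
  refine ⟨i, j, (x ^ i * y ^ j)⁻¹ * h, ?_, by group⟩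
  rw [h1]
  have h4 : (QuotientGroup.mk (x ^ i * y ^ j) : G ⧸ commutator G) = QuotientGroup.mk h := by
    exact hij
  exact QuotientGroup.eq.1 h4

theorem ext_gen {x y : G} (hxy : closure {x, y} = ⊤) {α : MulAut G} {g : G}
    (hx : α x = g * x * g⁻¹) (hy : α y = g * y * g⁻¹) (t : G) : α t = g * t * g⁻¹ := by
  have h1 : (α.toMonoidHom : G →* G) = (MulAut.conj g).toMonoidHom := by
    refine MonoidHom.eq_of_eqOn_dense hxy ?_
    rintro z (rfl | rfl)
    · exact hx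
    · exact hy
  have h2 := DFunLike.congr_fun h1 t
  exact h2

/-- class at most 2 -/
theorem core2 (h2 : gam G 2 = ⊥) {x y : G} (hxy : closure {x, y} = ⊤) {α : MulAut G}
    (hα : α ∈ AutC G) : ∃ g : G, ∀ t, α t = g * t * g⁻¹ := by
  obtain ⟨a, ha⟩ := isConj_iff.1 (hα x)
  obtain ⟨b, hb⟩ := isConj_iff.1 (hα y)
  obtain ⟨i, j, v, hv, hh⟩ := exists_decomp hxy (a⁻¹ * b)
  have hvc : v * y = y * v := by
    have := comm_mem_left hv y
    rw [show 1 + 1 = 2 from rfl, h2, Subgroup.mem_bot, commutatorElement_eq_one_iff_mul_comm] at this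
    exact this
  refine ⟨a * x ^ i, ext_gen hxy ?_ ?_⟩
  · rw [← ha]; group
  · rw [← hb]
    have hb' : b = a * (x ^ i * y ^ j * v) := by rw [← hh]; group
    rw [hb']
    calc a * (x ^ i * y ^ j * v) * y * (a * (x ^ i * y ^ j * v))⁻¹
        = a * x ^ i * y ^ j * (v * y) * v⁻¹ * (y ^ j)⁻¹ * (x ^ i)⁻¹ * a⁻¹ := by group
      _ = a * x ^ i * y * (a * x ^ i)⁻¹ := by rw [hvc]; group

section three

variable (h3 : gam G 3 = ⊥)
include h3

theorem central3 {n : G} (hn : n ∈ gam G 2) (g : G) : n * g = g * n := by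
  have := comm_mem_left hn g
  rw [show 2 + 1 = 3 from rfl, h3, Subgroup.mem_bot, commutatorElement_eq_one_iff_mul_comm] at this
  exact this

/-- `[v, g h] = [v, g] [v, h]` for `v ∈ γ_2` -/
theorem right_mul {v : G} (hv : v ∈ gam G 1) (g h : G) : ⁅v, g * h⁆ = ⁅v, g⁆ * ⁅v, h⁆ := by
  have h1 := central3 h3 (comm_mem_left hv h) g⁻¹
  have h4 : ⁅v, g * h⁆ = ⁅v, g⁆ * g * (⁅v, h⁆ * g⁻¹) := by
    simp only [commutatorElement_def]; group
  rw [h4, h1]
  group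

theorem left_mul {v w : G} (hw : w ∈ gam G 1) (g : G) :
    ⁅v * w, g⁆ = ⁅w, g⁆ * ⁅v, g⁆ := by
  have h1 := central3 h3 (comm_mem_left hw g) v⁻¹
  have h4 : ⁅v * w, g⁆ = v * (⁅w, g⁆ * v⁻¹) * ⁅v, g⁆ := by
    simp only [commutatorElement_def]; group
  rw [h4, h1]
  group

/-- `g ↦ [v, g]` as a homomorphism -/
def rhom {v : G} (hv : v ∈ gam G 1) : G →* G where
  toFun g := ⁅v, g⁆
  map_one' := by simp
  map_mul' := right_mul h3 hv

/-- `v ↦ [v, g]` as a homomorphism on `γ_2` -/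
def lhom (g : G) : gam G 1 →* G where
  toFun v := ⁅(v : G), g⁆
  map_one' := by simp
  map_mul' v w := by
    rw [Subgroup.coe_mul, left_mul h3 w.2, central3 h3 (comm_mem_left w.2 g)]

theorem right_zpow {v : G} (hv : v ∈ gam G 1) (g : G) (i : ℤ) : ⁅v, g ^ i⁆ = ⁅v, g⁆ ^ i :=
  map_zpow (rhom h3 hv) g i

theorem left_zpow {v : G} (hv : v ∈ gam G 1) (g : G) (i : ℤ) : ⁅v ^ i, g⁆ = ⁅v, g⁆ ^ i := by
  have h := map_zpow (lhom h3 g) ⟨v, hv⟩ i
  exact h

theorem left_gam2 {v n : G} (hn : n ∈ gam G 2) (g : G) : ⁅v * n, g⁆ = ⁅v, g⁆ := by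
  rw [left_mul h3 (gam_anti (by norm_num) hn)]
  have : ⁅n, g⁆ = 1 := by
    rw [commutatorElement_eq_one_iff_mul_comm]
    exact central3 h3 hn g
  rw [this, one_mul]

omit h3 in
/-- `γ_2 = ⟨[x, y]⟩ γ_3` -/
theorem gam_one_decomp {x y : G} (hxy : closure {x, y} = ⊤) {v : G} (hv : v ∈ gam G 1) :
    ∃ r : ℤ, ∃ n ∈ gam G 2, v = ⁅x, y⁆ ^ r * n := by
  set u := ⁅x, y⁆ with hu
  have hu1 : u ∈ gam G 1 := comm_mem_left (n := 0) (Subgroup.mem_top x) y
  set Z : Subgroup G := zpowers u ⊔ gam G 2 with hZ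
  have hconj : ∀ g : G, ∀ z ∈ Z, g * z * g⁻¹ ∈ Z := by
    intro g
    have hle : Z ≤ Z.comap (MulAut.conj g).toMonoidHom := by
      refine sup_le ?_ ?_
      · rw [Subgroup.zpowers_le]
        change g * u * g⁻¹ ∈ Z
        have h1 : g * u * g⁻¹ = ⁅g, u⁆ * u := by rw [commutatorElement_def]; group
        rw [h1]
        exact Z.mul_mem ((le_sup_right : gam G 2 ≤ Z) (comm_mem_right hu1 g))
          ((le_sup_left : zpowers u ≤ Z) (Subgroup.mem_zpowers u))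
      · intro n hn
        exact (le_sup_right : gam G 2 ≤ Z) ((gam_normal 2).conj_mem n hn g)
    intro z hz
    exact hle hz
  have hR : ∀ g : G, ⁅g, x⁆ ∈ Z → ⁅g, y⁆ ∈ Z → ∀ h : G, ⁅g, h⁆ ∈ Z := by
    intro g hgx hgy h
    have hh : h ∈ closure {x, y} := by rw [hxy]; exact Subgroup.mem_top h
    refine Subgroup.closure_induction (p := fun h _ => ⁅g, h⁆ ∈ Z) ?_ ?_ ?_ ?_ hh
    · rintro z (rfl | rfl)
      · exact hgx
      · exact hgy
    · rw [commutatorElement_one_right]; exact Z.one_mem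
    · intro a b _ _ ha hb
      have h1 : ⁅g, a * b⁆ = ⁅g, a⁆ * (a * ⁅g, b⁆ * a⁻¹) := by
        simp only [commutatorElement_def]; group
      rw [h1]
      exact Z.mul_mem ha (hconj a _ hb)
    · intro a _ ha
      have h1 : ⁅g, a⁻¹⁆ = a⁻¹ * ⁅g, a⁆⁻¹ * a⁻¹⁻¹ := by
        simp only [commutatorElement_def]; group
      rw [h1]
      exact hconj _ _ (Z.inv_mem ha)
  have huZ : u ∈ Z := (le_sup_left : zpowers u ≤ Z) (Subgroup.mem_zpowers u)
  have hX : ∀ h : G, ⁅x, h⁆ ∈ Z := hR x (by rw [commutatorElement_self]; exact Z.one_mem) huZ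
  have hY : ∀ h : G, ⁅y, h⁆ ∈ Z := hR y
    (by rw [← commutatorElement_inv]; exact Z.inv_mem huZ)
    (by rw [commutatorElement_self]; exact Z.one_mem)
  have hall : ∀ g h : G, ⁅g, h⁆ ∈ Z := by
    intro g
    refine hR g ?_ ?_
    · rw [← commutatorElement_inv]; exact Z.inv_mem (hX g)
    · rw [← commutatorElement_inv]; exact Z.inv_mem (hY g)
  have hle : gam G 1 ≤ Z := by
    rw [gam, Subgroup.lowerCentralSeries_succ, Subgroup.commutator_le]
    intro g _ h _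
    exact hall g h
  have h1 := hle hv
  rw [hZ] at h1
  have h2 : v ∈ (↑(zpowers u ⊔ gam G 2) : Set G) := h1
  rw [Subgroup.mul_normal] at h2
  obtain ⟨a, ⟨r, hr⟩, n, hn, han⟩ := h2
  refine ⟨r, n, hn, ?_⟩
  rw [← han, ← hr]

/-- power formula -/
theorem pow_formula (g' g : G) (j : ℕ) :
    ⁅g' ^ j, g⁆ = ⁅g', g⁆ ^ j * ⁅g', ⁅g', g⁆⁆ ^ (j.choose 2) := by
  set v := ⁅g', g⁆ with hv
  have hv1 : v ∈ gam G 1 := comm_mem_left (n := 0) (Subgroup.mem_top g') g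
  set z := ⁅g', v⁆ with hz
  have hz2 : z ∈ gam G 2 := comm_mem_right hv1 g'
  have hzc : ∀ t : G, Commute z t := fun t => central3 h3 hz2 t
  induction j with
  | zero => simp
  | succ j ih =>
    have h1 : ⁅g' ^ (j + 1), g⁆ = g' * ⁅g' ^ j, g⁆ * g'⁻¹ * v := by
      rw [hv, pow_succ']
      simp only [commutatorElement_def]; group
    have h2 : g' * v * g'⁻¹ = z * v := by rw [hz, commutatorElement_def]; group
    have h4 : g' * (v ^ j * z ^ (j.choose 2)) * g'⁻¹ = (z * v) ^ j * z ^ (j.choose 2) := by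
      rw [← h2, conj_pow]
      have := ((hzc g').pow_left (j.choose 2)).eq
      calc g' * (v ^ j * z ^ (j.choose 2)) * g'⁻¹
          = g' * v ^ j * (z ^ (j.choose 2) * g'⁻¹) := by group
        _ = g' * v ^ j * (g'⁻¹ * z ^ (j.choose 2)) := by
            rw [((hzc g'⁻¹).pow_left (j.choose 2)).eq]
        _ = _ := by group
    have hC : (j + 1).choose 2 = j + j.choose 2 := by
      rw [Nat.choose_succ_succ' j 1, Nat.choose_one_right]
    rw [h1, ih, h4, (hzc v).mul_pow, hC, pow_add z j, pow_succ v j]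
    have c1 := ((hzc (v ^ j)).pow_left j).eq
    have c2 := ((hzc v).pow_left (j.choose 2)).eq
    have c3 := ((hzc v).pow_left j).eq
    calc z ^ j * v ^ j * z ^ j.choose 2 * v = (z ^ j * v ^ j) * (z ^ j.choose 2 * v) := by
          simp only [mul_assoc]
      _ = v ^ j * (z ^ j * v) * z ^ j.choose 2 := by rw [c1, c2]; simp only [mul_assoc]
      _ = _ := by rw [c3]; simp only [mul_assoc]

omit h3 in
theorem eq_one_of_sq [Finite G] (hodd : Odd (Nat.card G)) {a : G} (h : a ^ 2 = 1) : a = 1 := by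
  have h1 : orderOf a ∣ 2 := orderOf_dvd_of_pow_eq_one h
  have h2 : orderOf a ∣ Nat.card G := orderOf_dvd_natCard a
  have h3 : Nat.Coprime 2 (Nat.card G) := (Nat.coprime_two_left).2 hodd
  have h4 : orderOf a ∣ 1 := by
    have := Nat.dvd_gcd h1 h2
    rwa [h3] at this
  exact orderOf_eq_one_iff.1 (Nat.dvd_one.1 h4)

/-- power formula in odd order -/
theorem pow_formula' [Finite G] (hodd : Odd (Nat.card G)) (g' g : G) (j : ℕ)
    (hj : ⁅g', g⁆ ^ j ∈ gam G 2) : ⁅g' ^ j, g⁆ = ⁅g', g⁆ ^ j := by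
  have hv1 : ⁅g', g⁆ ∈ gam G 1 := comm_mem_left (n := 0) (Subgroup.mem_top g') g
  have hz : ⁅g', ⁅g', g⁆⁆ ^ j = 1 := by
    have h1 : ⁅⁅g', g⁆ ^ (j : ℤ), g'⁆ = ⁅⁅g', g⁆, g'⁆ ^ (j : ℤ) := left_zpow h3 hv1 g' j
    rw [zpow_natCast, zpow_natCast] at h1
    have h2 : ⁅⁅g', g⁆ ^ j, g'⁆ = 1 := by
      rw [commutatorElement_eq_one_iff_mul_comm]
      exact central3 h3 hj g'
    rw [h2, ← commutatorElement_inv, inv_pow] at h1
    have h5 := inv_eq_one.1 h1.symm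
    exact h5
  have hC : ⁅g', ⁅g', g⁆⁆ ^ (j.choose 2) = 1 := by
    apply eq_one_of_sq hodd
    rw [← pow_mul]
    have h1 : j.choose 2 * 2 = j * (j - 1) := by
      rw [Nat.choose_two_right]
      exact Nat.div_mul_cancel (Nat.even_mul_pred_self j).two_dvd
    rw [h1, pow_mul, hz, one_pow]
  rw [pow_formula h3, hC, mul_one]

omit h3 in
theorem exists_nat_pow [Finite G] (g v : G) (m : ℤ) : ∃ j : ℕ, g ^ m = g ^ j ∧ v ^ m = v ^ j := by
  have hpos : (0 : ℤ) < Nat.card G := by exact_mod_cast Nat.card_pos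
  have hm : m % (Nat.card G : ℤ) = ((m % (Nat.card G : ℤ)).toNat : ℤ) :=
    (Int.toNat_of_nonneg (Int.emod_nonneg m hpos.ne')).symm
  refine ⟨(m % (Nat.card G : ℤ)).toNat, ?_, ?_⟩
  · rw [← zpow_natCast, ← hm, zpow_mod_natCard]
  · rw [← zpow_natCast, ← hm, zpow_mod_natCard]

theorem zpow_formula [Finite G] (hodd : Odd (Nat.card G)) (g' g : G) (m : ℤ)
    (hm : ⁅g', g⁆ ^ m ∈ gam G 2) : ⁅g' ^ m, g⁆ = ⁅g', g⁆ ^ m := by
  obtain ⟨j, h1, h2⟩ := exists_nat_pow g' ⁅g', g⁆ m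
  rw [h1, h2]
  rw [h2] at hm
  exact pow_formula' h3 hodd g' g j hm

/-- Lemma A -/
theorem lemmaA [Finite G] (hodd : Odd (Nat.card G)) {g' g : G} (hgen : closure {g', g} = ⊤)
    {h : G} (hh : ⁅h, g⁆ ∈ gam G 2) :
    ∃ r s : ℤ, ⁅g', g⁆ ^ s ∈ gam G 2 ∧ ⁅h, g⁆ = ⁅⁅g', g⁆, g⁆ ^ r * ⁅g', g⁆ ^ s := by
  set v := ⁅g', g⁆ with hv
  have hv1 : v ∈ gam G 1 := comm_mem_left (n := 0) (Subgroup.mem_top g') g
  obtain ⟨j, i, w, hw, hd⟩ := exists_decomp hgen h
  set w' := g ^ i * w * (g ^ i)⁻¹ with hw'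
  have hw1 : w' ∈ gam G 1 := (gam_normal 1).conj_mem w hw _
  have hh' : h = g' ^ j * w' * g ^ i := by rw [hd, hw']; group
  obtain ⟨r, n, hn, hrn⟩ := gam_one_decomp hgen hw1
  have e1 : ⁅h, g⁆ = ⁅g' ^ j * w', g⁆ := by
    rw [hh']
    simp only [commutatorElement_def]
    group
  have e2 : ⁅w', g⁆ = ⁅v, g⁆ ^ r := by
    rw [hrn, left_gam2 h3 hn, left_zpow h3 hv1]
  have e3 : ⁅g' ^ j * w', g⁆ = ⁅v, g⁆ ^ r * ⁅g' ^ j, g⁆ := by
    rw [left_mul h3 hw1, e2]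
  have hvg : ⁅v, g⁆ ^ r ∈ gam G 2 := (gam G 2).zpow_mem (comm_mem_left hv1 g) r
  have h4 : ⁅g' ^ j, g⁆ ∈ gam G 2 := by
    rw [e1, e3] at hh
    exact (Subgroup.mul_mem_cancel_left _ hvg).1 hh
  have h5 : v ^ j ∈ gam G 2 := by
    obtain ⟨m, h6, h7⟩ := exists_nat_pow g' v j
    rw [h6, pow_formula h3] at h4
    rw [h7]
    refine (Subgroup.mul_mem_cancel_right _ ?_).1 h4
    exact (gam G 2).pow_mem (comm_mem_right hv1 g') _
  refine ⟨r, j, h5, ?_⟩
  rw [e1, e3, zpow_formula h3 hodd g' g j h5]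

/-- class at most 3, under an independence condition -/
theorem core3 [Finite G] (hodd : Odd (Nat.card G)) {x y : G} (hxy : closure {x, y} = ⊤)
    (hind : ∀ i j : ℤ, ⁅⁅x, y⁆, x⁆ ^ i * ⁅⁅x, y⁆, y⁆ ^ j ∈ zpowers ⁅x, y⁆ →
      ⁅⁅x, y⁆, x⁆ ^ i ∈ zpowers ⁅x, y⁆) {α : MulAut G} (hα : α ∈ AutC G)
    (hN : ∀ t, α t * t⁻¹ ∈ gam G 2) : ∃ g : G, ∀ t, α t = g * t * g⁻¹ := by
  set u := ⁅x, y⁆ with hu
  have hu1 : u ∈ gam G 1 := comm_mem_left (n := 0) (Subgroup.mem_top x) y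
  set X := ⁅u, x⁆ with hX
  set Y := ⁅u, y⁆ with hY
  have hX2 : X ∈ gam G 2 := comm_mem_left hu1 x
  have hY2 : Y ∈ gam G 2 := comm_mem_left hu1 y
  have hτ : ∀ t, ∃ h : G, ⁅h, t⁆ ∈ gam G 2 ∧ α t * t⁻¹ = ⁅h, t⁆ := by
    intro t
    obtain ⟨h, hh⟩ := isConj_iff.1 (hα t)
    have h1 : α t * t⁻¹ = ⁅h, t⁆ := by rw [← hh, commutatorElement_def]
    exact ⟨h, by rw [← h1]; exact hN t, h1⟩
  have hyx : closure {y, x} = ⊤ := by rw [Set.pair_comm]; exact hxy
  have hyxy : closure {y, x * y} = ⊤ := by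
    rw [eq_top_iff, ← hxy, Subgroup.closure_le]
    have hy' : y ∈ closure {y, x * y} := Subgroup.subset_closure (by simp)
    have hxy' : x * y ∈ closure {y, x * y} := Subgroup.subset_closure (by simp)
    rintro z (rfl | rfl)
    · have := (closure {y, z * y}).mul_mem hxy' ((closure {y, z * y}).inv_mem hy')
      simpa using this
    · exact hy'
  have hyx' : ⁅y, x⁆ = u⁻¹ := by rw [hu, commutatorElement_inv]
  have hyxy' : ⁅y, x * y⁆ = u⁻¹ := by
    rw [hu]; simp only [commutatorElement_def]; group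
  have hinv : ∀ t : G, ⁅u⁻¹, t⁆ = ⁅u, t⁆⁻¹ := by
    intro t
    have := left_zpow h3 hu1 t (-1)
    simpa using this
  -- the three local expressions
  obtain ⟨hx, hx2, hx'⟩ := hτ x
  obtain ⟨hy, hy2, hy'⟩ := hτ y
  obtain ⟨hz, hz2, hz'⟩ := hτ (x * y)
  obtain ⟨r1, s1, hs1, e1⟩ := lemmaA h3 hodd hyx hx2
  obtain ⟨r2, s2, hs2, e2⟩ := lemmaA h3 hodd hxy hy2
  obtain ⟨r3, s3, hs3, e3⟩ := lemmaA h3 hodd hyxy hz2
  rw [hyx', hinv, ← hX] at e1
  rw [hyx'] at hs1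
  rw [← hu, ← hY] at e2
  rw [← hu] at hs2
  rw [hyxy', hinv, right_mul h3 hu1, ← hX, ← hY] at e3
  rw [hyxy'] at hs3
  rw [← hx'] at e1
  rw [← hy'] at e2
  rw [← hz'] at e3
  have cX : ∀ (i : ℤ) (t : G), Commute (X ^ i) t :=
    fun i t => central3 h3 ((gam G 2).zpow_mem hX2 i) t
  have cY : ∀ (i : ℤ) (t : G), Commute (Y ^ i) t :=
    fun i t => central3 h3 ((gam G 2).zpow_mem hY2 i) t
  -- multiplicativity
  have hmul : α (x * y) * (x * y)⁻¹ = (α x * x⁻¹) * (α y * y⁻¹) := by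
    have h1 := central3 h3 (hN y) x⁻¹
    rw [map_mul]
    calc α x * α y * (x * y)⁻¹ = α x * ((α y * y⁻¹) * x⁻¹) := by group
      _ = α x * (x⁻¹ * (α y * y⁻¹)) := by rw [h1]
      _ = _ := by group
  -- rewrite with exponents
  have f1 : α x * x⁻¹ = X ^ (-r1) * u ^ (-s1) := by rw [e1, inv_zpow', inv_zpow']
  have f3 : α (x * y) * (x * y)⁻¹ = (X ^ (-r3) * Y ^ (-r3)) * u ^ (-s3) := by
    rw [e3, inv_zpow', inv_zpow', Commute.mul_zpow (by simpa using cX 1 Y)]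
  have g1 : u ^ (-s1) ∈ gam G 2 := by rw [← inv_zpow']; exact hs1
  have g3 : u ^ (-s3) ∈ gam G 2 := by rw [← inv_zpow']; exact hs3
  generalize -r1 = a1 at f1
  generalize -s1 = t1 at f1 g1
  generalize -r3 = a3 at f3
  generalize -s3 = t3 at f3 g3
  have key : ∀ {A : Type _} [AddCommGroup A] (P Q U1 U2 U3 P3 Q3 : A),
      P3 + Q3 + U3 = (P + U1) + (Q + U2) → (P + -P3) + (Q + -Q3) = U3 + -U1 + -U2 := by
    intro A _ P Q U1 U2 U3 P3 Q3 h
    linear_combination (norm := abel) - h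
  have hcen : ∀ n ∈ gam G 2, n ∈ Subgroup.center G := fun n hn =>
    Subgroup.mem_center_iff.2 fun g => (central3 h3 hn g).symm
  have h1 : (X ^ a1 * (X ^ a3)⁻¹) * (Y ^ r2 * (Y ^ a3)⁻¹) = u ^ t3 * (u ^ t1)⁻¹ * (u ^ s2)⁻¹ := by
    let _ : CommGroup (Subgroup.center G) := cgrp G
    have hX' := fun i : ℤ => hcen _ ((gam G 2).zpow_mem hX2 i)
    have hY' := fun i : ℤ => hcen _ ((gam G 2).zpow_mem hY2 i)
    have h5 := key (A := Additive (Subgroup.center G)) (Additive.ofMul ⟨_, hX' a1⟩)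
      (Additive.ofMul ⟨_, hY' r2⟩) (Additive.ofMul ⟨_, hcen _ g1⟩) (Additive.ofMul ⟨_, hcen _ hs2⟩)
      (Additive.ofMul ⟨_, hcen _ g3⟩) (Additive.ofMul ⟨_, hX' a3⟩) (Additive.ofMul ⟨_, hY' a3⟩) (by
        apply Additive.toMul.injective
        apply Subtype.ext
        change (X ^ a3 * Y ^ a3) * u ^ t3 = (X ^ a1 * u ^ t1) * (Y ^ r2 * u ^ s2)
        rw [← f3, ← f1, ← e2, hmul])
    have h6 := congrArg (fun z : Additive (Subgroup.center G) => ((Additive.toMul z : Subgroup.center G) : G)) h5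
    exact h6
  have h4 : X ^ (a1 - a3) * Y ^ (r2 - a3) = u ^ (t3 - t1 - s2) := by
    rw [zpow_sub, zpow_sub, zpow_sub, zpow_sub, h1]
  obtain ⟨b, hb⟩ := hind (a1 - a3) (r2 - a3) (by rw [h4]; exact ⟨_, rfl⟩)
  have hb' : X ^ (a1 - a3) = u ^ b := hb.symm
  have hc' : Y ^ (r2 - a3) = u ^ (-b + (t3 - t1 - s2)) := by
    rw [zpow_add, ← h4, hb', zpow_neg, inv_mul_cancel_left]
  set b' := -b + (t3 - t1 - s2) with hbdef
  have k1 : X ^ a1 = X ^ a3 * u ^ b := by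
    rw [← hb', ← zpow_add]; congr 1; ring
  have k2 : Y ^ r2 = Y ^ a3 * u ^ b' := by
    rw [← hc', ← zpow_add]; congr 1; ring
  have m1 : u ^ (b + t1) ∈ gam G 2 := by
    rw [zpow_add, ← hb']
    exact (gam G 2).mul_mem ((gam G 2).zpow_mem hX2 _) g1
  have m2 : u ^ (b' + s2) ∈ gam G 2 := by
    rw [zpow_add, ← hc']
    exact (gam G 2).mul_mem ((gam G 2).zpow_mem hY2 _) hs2
  have n1 : α x * x⁻¹ = X ^ a3 * u ^ (b + t1) := by rw [f1, k1, zpow_add, mul_assoc]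
  have n2 : α y * y⁻¹ = Y ^ a3 * u ^ (b' + s2) := by rw [e2, k2, zpow_add u b' s2, mul_assoc]
  generalize b + t1 = E1 at m1 n1
  generalize b' + s2 = E2 at m2 n2
  -- realise the last factors
  have p1 : ⁅y ^ (-E1), x⁆ = u ^ E1 := by
    have h5 : ⁅y, x⁆ ^ (-E1) = u ^ E1 := by rw [hyx', inv_zpow', neg_neg]
    rw [zpow_formula h3 hodd y x (-E1) (by rw [h5]; exact m1), h5]
  have p2 : ⁅x ^ E2, y⁆ = u ^ E2 := zpow_formula h3 hodd x y E2 m2
  have q1 : ⁅y ^ (-E1) * x ^ E2, x⁆ = u ^ E1 := by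
    rw [← p1]; simp only [commutatorElement_def]; group
  have q2 : ⁅y ^ (-E1) * x ^ E2, y⁆ = u ^ E2 := by
    have h5 : ⁅y ^ (-E1) * x ^ E2, y⁆ = y ^ (-E1) * (⁅x ^ E2, y⁆ * y ^ E1) := by
      simp only [commutatorElement_def]; group
    rw [h5, p2, central3 h3 m2]
    group
  have hua : u ^ a3 ∈ gam G 1 := (gam G 1).zpow_mem hu1 a3
  refine ⟨y ^ (-E1) * x ^ E2 * u ^ a3, ext_gen hxy ?_ ?_⟩
  · have h5 : ⁅y ^ (-E1) * x ^ E2 * u ^ a3, x⁆ = α x * x⁻¹ := by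
      rw [left_mul h3 hua, q1, left_zpow h3 hu1, n1]
    rw [commutatorElement_def] at h5
    exact (mul_right_cancel h5).symm
  · have h5 : ⁅y ^ (-E1) * x ^ E2 * u ^ a3, y⁆ = α y * y⁻¹ := by
      rw [left_mul h3 hua, q2, left_zpow h3 hu1, n2]
    rw [commutatorElement_def] at h5
    exact (mul_right_cancel h5).symm

end three

/-- adapted generators -/
theorem adapted {A : Type*} [CommGroup A] [Finite A] (X Y : A) (h : orderOf Y ∣ orderOf X) :
    ∃ c : ℤ, ∀ i j : ℤ, X ^ i * (Y * X ^ (-c)) ^ j = 1 → X ^ i = 1 := by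
  set m := orderOf (QuotientGroup.mk Y : A ⧸ zpowers X) with hm
  have hYm : Y ^ m ∈ zpowers X := by
    have h1 : (QuotientGroup.mk Y : A ⧸ zpowers X) ^ m = 1 := pow_orderOf_eq_one _
    rw [← QuotientGroup.mk_pow, QuotientGroup.eq_one_iff] at h1
    exact h1
  obtain ⟨b, hb⟩ := hYm
  have hb' : X ^ b = Y ^ m := hb
  have hmn : m ∣ orderOf X := by
    rw [hm, orderOf_dvd_iff_pow_eq_one, ← QuotientGroup.mk_pow,
      orderOf_dvd_iff_pow_eq_one.1 h, QuotientGroup.mk_one]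
  obtain ⟨m', hm'⟩ := hmn
  have hmpos : 0 < m := orderOf_pos _
  have hXpos : 0 < orderOf X := orderOf_pos X
  have hm'pos : 0 < m' := by
    rcases Nat.eq_zero_or_pos m' with h0 | h0
    · rw [h0, mul_zero] at hm'
      omega
    · exact h0
  have hdvd : (m : ℤ) ∣ b := by
    have h1 : X ^ (b * m') = 1 := by
      rw [zpow_mul, hb', zpow_natCast, ← pow_mul, ← hm']
      exact orderOf_dvd_iff_pow_eq_one.1 h
    rw [← orderOf_dvd_iff_zpow_eq_one, hm'] at h1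
    push_cast at h1
    exact Int.dvd_of_mul_dvd_mul_right (by exact_mod_cast hm'pos.ne') h1
  obtain ⟨c, hc⟩ := hdvd
  refine ⟨c, fun i j hij => ?_⟩
  have h1 : (Y * X ^ (-c)) ^ m = 1 := by
    rw [mul_pow, ← hb', hc, ← zpow_natCast (X ^ (-c)), ← zpow_mul, ← zpow_add]
    have : (m : ℤ) * c + -c * m = 0 := by ring
    rw [this, zpow_zero]
  have h2 : (m : ℤ) ∣ j := by
    rw [hm, orderOf_dvd_iff_zpow_eq_one, ← QuotientGroup.mk_zpow, QuotientGroup.eq_one_iff]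
    refine ⟨-i + c * j, ?_⟩
    change X ^ (-i + c * j) = Y ^ j
    rw [mul_zpow, ← zpow_mul] at hij
    have h3 : Y ^ j = (X ^ i)⁻¹ * (X ^ (-c * j))⁻¹ := by
      rw [eq_comm, ← mul_inv, inv_eq_iff_mul_eq_one, mul_assoc, mul_comm _ (Y ^ j)]
      exact hij
    rw [h3, ← zpow_neg, ← zpow_neg, ← zpow_add]
    congr 1
    ring
  obtain ⟨k, hk⟩ := h2
  have h3 : (Y * X ^ (-c)) ^ j = 1 := by
    rw [hk, zpow_mul, zpow_natCast, h1, one_zpow]
  rwa [h3, mul_one] at hij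

end Pool.Agent.Helper973_TwoGen
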