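import Mathlib
import Pool.Agent.Helper973_OutC.Base
import Pool.Agent.Helper973_TwoGen.Deep
import Pool.Agent.Helper973_TwoGen.T3

/-!
The class of `OutC G` for 2-generated finite `p`-groups.
-/

set_option autoImplicit false

namespace Pool.Agent.Helper973_TwoGen

open Subgroup Pool.Agent.Helper973_OutC
open scoped commutatorElement

variable {G : Type*} [Group G]

theorem gam_quot_bot (k : ℕ) : gam (G ⧸ gam G k) k = ⊥ := by
  have h1 : (⊤ : Subgroup (G ⧸ gam G k)) = (⊤ : Subgroup G).map (QuotientGroup.mk' (gam G k)) :=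
    (Subgroup.map_top_of_surjective _ (QuotientGroup.mk'_surjective _)).symm
  change (⊤ : Subgroup (G ⧸ gam G k)).lowerCentralSeries k = ⊥
  rw [h1, ← Subgroup.map_lowerCentralSeries, Subgroup.map_eq_bot_iff, QuotientGroup.ker_mk']

/-- passage to a quotient by a term of the lower central series -/
theorem of_quot {k : ℕ} (hq : ∀ β : MulAut (G ⧸ gam G k), β ∈ AutC (G ⧸ gam G k) →
    ∃ g, ∀ t, β t = g * t * g⁻¹) {α : MulAut G} (hα : α ∈ AutC G) :
    ∃ g : G, ∀ x : G, α x * (g * x * g⁻¹)⁻¹ ∈ gam G k := by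
  have hmap : (gam G k).map (α : G ≃* G).toMonoidHom = gam G k := by
    rw [gam, Subgroup.map_lowerCentralSeries]
    congr 1
    exact Subgroup.map_top_of_surjective _ α.surjective
  let β : MulAut (G ⧸ gam G k) := QuotientGroup.congr (gam G k) (gam G k) α hmap
  have hβ : ∀ x : G, β (QuotientGroup.mk x) = QuotientGroup.mk (α x) := fun x => rfl
  have hβm : β ∈ AutC (G ⧸ gam G k) := by
    intro q
    obtain ⟨x, rfl⟩ := QuotientGroup.mk_surjective q
    obtain ⟨c, hc⟩ := isConj_iff.1 (hα x)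
    rw [hβ, ← hc]
    exact isConj_iff.2 ⟨QuotientGroup.mk c, rfl⟩
  obtain ⟨q, hq'⟩ := hq β hβm
  obtain ⟨g, rfl⟩ := QuotientGroup.mk_surjective q
  refine ⟨g, fun x => ?_⟩
  apply mem_of_mk_eq
  rw [← hβ, hq']
  rfl

theorem closure_quot {k : ℕ} {x y : G} (hxy : closure {x, y} = ⊤) :
    closure {(QuotientGroup.mk x : G ⧸ gam G k), QuotientGroup.mk y} = ⊤ := by
  have h3 : (closure {x, y}).map (QuotientGroup.mk' (gam G k))
      = closure {(QuotientGroup.mk x : G ⧸ gam G k), QuotientGroup.mk y} := by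
    rw [MonoidHom.map_closure, Set.image_pair]
    rfl
  rw [← h3, hxy]
  exact Subgroup.map_top_of_surjective _ (QuotientGroup.mk'_surjective _)

/-- 2-generated `p`-groups of class at most 3, `p` odd -/
theorem t3 {p : ℕ} [hpf : Fact p.Prime] [Finite G] (hp : IsPGroup p G) (hp2 : p ≠ 2)
    (h3 : gam G 3 = ⊥) {x y : G} (hxy : closure {x, y} = ⊤) {α : MulAut G} (hα : α ∈ AutC G) :
    ∃ g : G, ∀ t, α t = g * t * g⁻¹ := by
  have hodd : Odd (Nat.card G) := by
    obtain ⟨n, hn⟩ := IsPGroup.iff_card.1 hp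
    rw [hn]
    exact (hpf.out.odd_of_ne_two hp2).pow
  -- reduction modulo `γ_3`
  obtain ⟨g0, hg0⟩ := of_quot (k := 2)
    (fun β hβ => core2 (gam_quot_bot 2) (closure_quot hxy) hβ) hα
  set α' : MulAut G := α * (MulAut.conj g0)⁻¹ with hα'
  have hcj : MulAut.conj g0 ∈ AutC G := fun x => isConj_iff.2 ⟨g0, (MulAut.conj_apply g0 x).symm⟩
  have hα'm : α' ∈ AutC G := (AutC G).mul_mem hα ((AutC G).inv_mem hcj)
  have hα'x : ∀ t, α' t = α (g0⁻¹ * t * g0) := by
    intro t
    rw [hα', MulAut.mul_apply, ← map_inv, MulAut.conj_apply, inv_inv]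
  have hN : ∀ t, α' t * t⁻¹ ∈ gam G 2 := by
    intro t
    have h2 := hg0 (g0⁻¹ * t * g0)
    have h5 : g0 * (g0⁻¹ * t * g0) * g0⁻¹ = t := by group
    rw [h5] at h2
    rw [hα'x]
    exact h2
  suffices h : ∃ g : G, ∀ t, α' t = g * t * g⁻¹ by
    obtain ⟨g, hg⟩ := h
    refine ⟨g * g0, fun t => ?_⟩
    have h1 := hg (g0 * t * g0⁻¹)
    rw [hα'x] at h1
    have h5 : g0⁻¹ * (g0 * t * g0⁻¹) * g0 = t := by group
    rw [h5] at h1
    rw [h1]
    group
  -- the two commutators
  set u := ⁅x, y⁆ with hu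
  have hu1 : u ∈ gam G 1 := comm_mem_left (n := 0) (Subgroup.mem_top x) y
  set X := ⁅u, x⁆ with hX
  set Y := ⁅u, y⁆ with hY
  have hX2 : X ∈ gam G 2 := comm_mem_left hu1 x
  have hY2 : Y ∈ gam G 2 := comm_mem_left hu1 y
  have hcen : ∀ n ∈ gam G 2, n ∈ Subgroup.center G := fun n hn =>
    Subgroup.mem_center_iff.2 fun g => (central3 h3 hn g).symm
  let _ : CommGroup (Subgroup.center G) := cgrp G
  let E : Subgroup (Subgroup.center G) := (zpowers u).subgroupOf (Subgroup.center G)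
  let Xc : Subgroup.center G := ⟨X, hcen X hX2⟩
  let Yc : Subgroup.center G := ⟨Y, hcen Y hY2⟩
  have hpA : IsPGroup p (Subgroup.center G ⧸ E) := (hp.to_subgroup (Subgroup.center G)).to_quotient E
  have hmem : ∀ z : Subgroup.center G, (QuotientGroup.mk z : Subgroup.center G ⧸ E) = 1 ↔
      (z : G) ∈ zpowers u := by
    intro z
    rw [QuotientGroup.eq_one_iff]
    exact Subgroup.mem_subgroupOf
  obtain ⟨a, ha⟩ := IsPGroup.iff_orderOf.1 hpA (QuotientGroup.mk Xc)
  obtain ⟨b, hb⟩ := IsPGroup.iff_orderOf.1 hpA (QuotientGroup.mk Yc)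
  rcases le_total b a with hab | hab
  · obtain ⟨c, hc⟩ := adapted (QuotientGroup.mk Xc : Subgroup.center G ⧸ E) (QuotientGroup.mk Yc)
      (by rw [ha, hb]; exact pow_dvd_pow p hab)
    have hc' : ∀ i j : ℤ, X ^ i * (Y * X ^ (-c)) ^ j ∈ zpowers u → X ^ i ∈ zpowers u := by
      intro i j hij
      have h1 := (hmem (Xc ^ i * (Yc * Xc ^ (-c)) ^ j)).2 hij
      have h2 := hc i j h1
      exact (hmem (Xc ^ i)).1 h2
    have hcom : ⁅x, y * x ^ (-c)⁆ = u := by
      rw [hu]; simp only [commutatorElement_def]; group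
    have hgen : closure {x, y * x ^ (-c)} = ⊤ := by
      rw [eq_top_iff, ← hxy, Subgroup.closure_le]
      have hx' : x ∈ closure {x, y * x ^ (-c)} := Subgroup.subset_closure (by simp)
      have hy' : y * x ^ (-c) ∈ closure {x, y * x ^ (-c)} := Subgroup.subset_closure (by simp)
      rintro z (rfl | rfl)
      · exact hx'
      · have := (closure {x, z * x ^ (-c)}).mul_mem hy'
          ((closure {x, z * x ^ (-c)}).zpow_mem hx' c)
        simpa using this
    refine core3 h3 hodd hgen ?_ hα'm hN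
    rw [hcom, right_mul h3 hu1, right_zpow h3 hu1]
    exact hc'
  · obtain ⟨c, hc⟩ := adapted (QuotientGroup.mk Yc : Subgroup.center G ⧸ E) (QuotientGroup.mk Xc)
      (by rw [ha, hb]; exact pow_dvd_pow p hab)
    have hc' : ∀ i j : ℤ, (X * Y ^ (-c)) ^ i * Y ^ j ∈ zpowers u →
        (X * Y ^ (-c)) ^ i ∈ zpowers u := by
      intro i j hij
      have h1 := (hmem ((Xc * Yc ^ (-c)) ^ i * Yc ^ j)).2 hij
      rw [mul_comm] at h1
      have h2 := hc j i h1
      have h4 := (hmem (Yc ^ j)).1 h2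
      have h5 : (X * Y ^ (-c)) ^ i = ((X * Y ^ (-c)) ^ i * Y ^ j) * (Y ^ j)⁻¹ := by group
      rw [h5]
      exact (zpowers u).mul_mem hij ((zpowers u).inv_mem h4)
    have hcom : ⁅x * y ^ (-c), y⁆ = u := by
      rw [hu]; simp only [commutatorElement_def]; group
    have hgen : closure {x * y ^ (-c), y} = ⊤ := by
      rw [eq_top_iff, ← hxy, Subgroup.closure_le]
      have hx' : x * y ^ (-c) ∈ closure {x * y ^ (-c), y} := Subgroup.subset_closure (by simp)
      have hy' : y ∈ closure {x * y ^ (-c), y} := Subgroup.subset_closure (by simp)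
      rintro z (rfl | rfl)
      · have := (closure {z * y ^ (-c), y}).mul_mem hx'
          ((closure {z * y ^ (-c), y}).zpow_mem hy' c)
        simpa using this
      · exact hy'
    refine core3 h3 hodd hgen ?_ hα'm hN
    rw [hcom, right_mul h3 hu1, right_zpow h3 hu1]
    exact hc'

/-- the lower central series of `OutC G` for a 2-generated `p`-group -/
theorem two_gen {p : ℕ} [hpf : Fact p.Prime] [Finite G] (hp : IsPGroup p G)
    {x y : G} (hxy : closure {x, y} = ⊤) {n c : ℕ} (hc : gam G c = ⊥)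
    (hn : c ≤ min p 3 * (n + 1)) : (⊤ : Subgroup (OutC G)).lowerCentralSeries n = ⊥ := by
  by_cases hp2 : p = 2
  · refine outC_lcs_eq_bot (k := 1) (n := n) (c := c) ?_ hc ?_
    · intro α
      exact of_quot (k := 2) (fun β hβ => core2 (gam_quot_bot 2) (closure_quot hxy) hβ) α.2
    · rw [hp2] at hn
      simpa using hn
  · have hp3 : 3 ≤ p := by
      have := hpf.out.two_le
      omega
    refine outC_lcs_eq_bot (k := 2) (n := n) (c := c) ?_ hc ?_
    · intro α
      exact of_quot (k := 3) (fun β hβ =>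
        t3 (hp.to_quotient (gam G 3)) hp2 (gam_quot_bot 3) (closure_quot hxy) hβ) α.2
    · rw [min_eq_right hp3] at hn
      exact hn

end Pool.Agent.Helper973_TwoGen
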